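import Pool.Graph.R_seed8.R544.LG.Final

set_option autoImplicit false

/-! Every `+`-variety which contains the languages `P⁺` for the finite bifix codes `P` that are
maximal prefix codes contains the variety of local groups. The proof is the assembly of the library
module `R544.LG.Final`; the codes which are constructed there are complete bifix codes. -/

namespace Pool.Agent.KS6_11.BifLG

open Pool.Agent.R544.LG

theorem main (W : (k : ℕ) → Set (Set (List (Fin k))))
    (h0 : ∀ k, (∅ : Set (List (Fin k))) ∈ W k)
    (hc : ∀ k, ∀ L ∈ W k, {w : List (Fin k) | w ≠ [] ∧ w ∉ L} ∈ W k)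
    (hu : ∀ k, ∀ L ∈ W k, ∀ K ∈ W k, L ∪ K ∈ W k)
    (hq : ∀ k, ∀ L ∈ W k, ∀ u : List (Fin k),
          {w : List (Fin k) | w ≠ [] ∧ u ++ w ∈ L} ∈ W k ∧
          {w : List (Fin k) | w ≠ [] ∧ w ++ u ∈ L} ∈ W k)
    (hm : ∀ (k m : ℕ) (φ : Fin m → List (Fin k)), (∀ a, φ a ≠ []) →
          ∀ L ∈ W k, {w : List (Fin m) | w ≠ [] ∧ w.flatMap φ ∈ L} ∈ W m)
    (hp : ∀ (k : ℕ) (P : Finset (List (Fin k))),
          ([] : List (Fin k)) ∉ P →
          (∀ p ∈ P, ∀ q ∈ P, p <+: q → p = q) →
          (∀ p ∈ P, ∀ q ∈ P, p <:+ q → p = q) →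
          (∀ w : List (Fin k), ∃ p ∈ P, p <+: w ∨ w <+: p) →
          {w : List (Fin k) | ∃ l : List (List (Fin k)),
              l ≠ [] ∧ (∀ p ∈ l, p ∈ P) ∧ w = l.flatten} ∈ W k)
    (n : ℕ) (L : Set (List (Fin n)))
    (hL : ∃ (S : Type) (_ : Semigroup S) (_ : Finite S),
            (∀ e : S, e * e = e → ∀ x : S, ∃ y : S,
                (e * x * e) * (e * y * e) = e ∧ (e * y * e) * (e * x * e) = e) ∧
            ∃ φ : List (Fin n) → S,
              (∀ u v : List (Fin n), u ≠ [] → v ≠ [] → φ (u ++ v) = φ u * φ v) ∧
              ∃ X : Set S, L = {w : List (Fin n) | w ≠ [] ∧ φ w ∈ X}) :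
    L ∈ W n := by
  classical
  obtain ⟨S, instS, finS, hS, φ, hφ, X, rfl⟩ := hL
  obtain ⟨N, hN, G, instG, finG, g, hsem⟩ := Pool.Agent.R729.LG.sem n S hS φ hφ
  obtain ⟨U, instU, hneU, J, sch, hJ, hper, hkill⟩ :=
    kill (M := MM G) g (fun _ : Fin N => (none : Option (Fin n)))
  obtain ⟨u0⟩ := hneU
  have hP := PP_bif g sch J hJ (fun _ : Fin N => (none : Option (Fin n))) hN hper hkill
  set K := KK J U
  set P := PP g sch J hJ (fun _ : Fin N => (none : Option (Fin n))) with hPdef
  -- the alphabet
  let k := Nat.card (Option (Fin n) × Fin (K + 1))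
  let f : Fin k ≃ (Option (Fin n) × Fin (K + 1)) := (Finite.equivFin _).symm
  have hfin : Set.Finite {w : List (Fin k) | w.map f ∈ P} := by
    apply (List.finite_length_le (Fin k) ((K + 1) * dd N J U)).subset
    intro w hw
    have := hP.len_le _ hw
    rw [List.length_map] at this
    exact this
  have hlang : {w : List (Fin k) | ∃ l : List (List (Fin k)),
      l ≠ [] ∧ (∀ p ∈ l, p ∈ hfin.toFinset) ∧ w = l.flatten} = {w | w.map f ∈ plus P} := by
    ext w
    constructor
    · rintro ⟨l, hl, hl2, rfl⟩
      refine ⟨l.map (List.map f), by simpa using hl, ?_, by rw [List.map_flatten]⟩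
      intro p hp
      obtain ⟨q, hq, rfl⟩ := List.mem_map.1 hp
      have := hl2 q hq
      rw [Set.Finite.mem_toFinset] at this
      exact this
    · rintro ⟨l, hl, hl2, hw⟩
      refine ⟨l.map (List.map f.symm), by simpa using hl, ?_, ?_⟩
      · intro p hp
        obtain ⟨q, hq, rfl⟩ := List.mem_map.1 hp
        rw [Set.Finite.mem_toFinset]
        show (q.map f.symm).map f ∈ P
        rw [List.map_map]
        simpa using hl2 q hq
      · rw [← List.map_flatten, ← hw, List.map_map]
        simp
  have hL0 : {w : List (Fin k) | w.map f ∈ plus P} ∈ W k := by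
    rw [← hlang]
    apply hp k hfin.toFinset
    · rw [Set.Finite.mem_toFinset]
      intro h
      exact hP.ne h
    · intro p hp q hq hpq
      rw [Set.Finite.mem_toFinset] at hp hq
      have h1 := hP.pre _ hp _ hq (hpq.map f)
      exact List.map_injective_iff.2 f.injective h1
    · intro p hp q hq hpq
      rw [Set.Finite.mem_toFinset] at hp hq
      have h1 := hP.suf _ hp _ hq (hpq.map f)
      exact List.map_injective_iff.2 f.injective h1
    · intro w
      obtain ⟨p, hp, hpre⟩ := hP.com (w.map f ++ List.replicate ((K + 1) * dd N J U) (none, 0))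
        (by rw [List.length_append, List.length_replicate]; exact Nat.le_add_left _ _)
      refine ⟨p.map f.symm, ?_, ?_⟩
      · rw [Set.Finite.mem_toFinset]
        show (p.map f.symm).map f ∈ P
        rw [List.map_map]
        simpa using hp
      · rcases List.prefix_or_prefix_of_prefix hpre (List.prefix_append _ _) with h | h
        · left
          have := h.map f.symm
          rw [List.map_map] at this
          simpa using this
        · right
          have := h.map f.symm
          rw [List.map_map] at this
          simpa using this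
  -- tests
  let tst : List (Option (Fin n) × Fin (K + 1)) → List (Option (Fin n) × Fin (K + 1)) →
      Set (List (Fin n)) := fun s r => {w | w ≠ [] ∧ s ++ Phi K (w.map some) ++ r ∈ plus P}
  have htst : ∀ s r, tst s r ∈ W n := by
    intro s r
    have h1 := (hq k _ hL0 (s.map f.symm)).1
    have h2 := (hq k _ h1 (r.map f.symm)).2
    have h3 := hm k n (fun a => (phi1 K (some a)).map f.symm) (by
      intro a h
      have := congrArg List.length h
      rw [List.length_map, length_phi1] at this
      simp at this) _ h2
    convert h3 using 1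
    ext w
    simp only [tst, Set.mem_ofPred_eq, List.map_append, flatMap_phi, List.map_map]
    have e1 : List.map (⇑f ∘ ⇑f.symm) s = s := by simp
    have e2 : List.map (⇑f ∘ ⇑f.symm) r = r := by simp
    rw [e1, e2]
    have h4 : w ≠ [] → w.flatMap (fun a => (phi1 K (some a)).map f.symm) ≠ [] := by
      intro hw h
      cases w with
      | nil => exact hw rfl
      | cons a w =>
        rw [List.flatMap_cons] at h
        have := congrArg List.length h
        rw [List.length_append, List.length_map, length_phi1, List.length_nil] at this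
        omega
    constructor
    · rintro ⟨h5, h6⟩
      refine ⟨h5, h4 h5, ?_, ?_⟩
      · intro h7
        exact h4 h5 (List.append_eq_nil_iff.1 h7).1
      · rw [← List.append_assoc]; exact h6
    · rintro ⟨h5, _, _, h6⟩
      refine ⟨h5, ?_⟩
      rw [List.append_assoc]; exact h6
  -- conclusion
  let F : Set (Set (List (Fin n))) :=
    Set.image2 tst {s | s.length ≤ Lb N J K} {r | r.length ≤ Lb N J K}
  have hF : F.Finite := Set.Finite.image2 _ (List.finite_length_le _ _) (List.finite_length_le _ _)
  apply Pool.Agent.R729.LG.closure W h0 hc hu n F hF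
  · rintro A ⟨s, _, r, _, rfl⟩
    exact htst s r
  · intro w hw; exact hw.1
  · intro w w' hw hw' hdet hwL
    refine ⟨hw', ?_⟩
    have htest : ∀ s r : List (Option (Fin n) × Fin (K + 1)), s.length ≤ Lb N J K →
        r.length ≤ Lb N J K →
        (s ++ Phi K (w.map some) ++ r ∈ plus P ↔ s ++ Phi K (w'.map some) ++ r ∈ plus P) := by
      intro s r hs hr
      have h1 := hdet (tst s r) ⟨s, hs, r, hr, rfl⟩
      constructor
      · intro h2; exact (h1.1 ⟨hw, h2⟩).2
      · intro h2; exact (h1.2 ⟨hw', h2⟩).2
    have hblk : ∀ x : List (Fin n), ∃ bs : List (Fin N → Option (Fin n)),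
        fl bs = x.map some ++ List.replicate (N - x.length % N) none := by
      intro x
      apply exists_blocks (x.length / N + 1)
      rw [List.length_append, List.length_map, List.length_replicate]
      have h1 := Nat.div_add_mod x.length N
      have h2 := Nat.mod_lt x.length hN
      have h3 : (x.length / N + 1) * N = N * (x.length / N) + N := by ring
      omega
    obtain ⟨bs, hbs⟩ := hblk w
    obtain ⟨bs', hbs'⟩ := hblk w'
    obtain ⟨h1, h2⟩ := recover g sch J hJ hN hper hkill (MM_faith G) none u0 (w.map some)
      (w'.map some) htest bs bs' (by rw [List.length_map]; exact hbs)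
      (by rw [List.length_map]; exact hbs')
    rw [List.length_map, List.length_map] at h1
    rw [PG_eq, PG_eq] at h2
    have h3 := hsem w w' hw hw' h1 bs bs' hbs hbs' h2
    rw [← h3]
    exact hwL.2

end Pool.Agent.KS6_11.BifLG
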