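import Mathlib

set_option autoImplicit false

/-! Finite complete bifix codes over an arbitrary alphabet are inverse images of such codes over a
two-letter alphabet. -/

namespace Pool.Agent.KS6_11.BifLG

variable {k m : ℕ}

/-- The decoding: the images under `σ` of the consecutive blocks of length `m`. -/
def dec (σ : List (Fin 2) → Fin k) (m : ℕ) : ℕ → List (Fin 2) → List (Fin k)
  | 0, _ => []
  | n + 1, u => σ (u.take m) :: dec σ m n (u.drop m)

lemma dec_append (σ : List (Fin 2) → Fin k) (a : ℕ) (b : ℕ) (u v : List (Fin 2))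
    (hu : u.length = a * m) : dec σ m (a + b) (u ++ v) = dec σ m a u ++ dec σ m b v := by
  induction a generalizing u with
  | zero =>
    have : u = [] := List.length_eq_zero_iff.1 (by simpa using hu)
    subst this
    simp [dec]
  | succ a ih =>
    have h1 : m ≤ u.length := by rw [hu]; nlinarith
    have h2 : a + 1 + b = (a + b) + 1 := by ring
    rw [h2, dec, dec, List.take_append_of_le_length h1, List.drop_append_of_le_length h1,
      ih (u.drop m) (by rw [List.length_drop, hu]; rw [Nat.succ_mul]; omega), List.cons_append]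

lemma dec_length (σ : List (Fin 2) → Fin k) (n : ℕ) (u : List (Fin 2)) :
    (dec σ m n u).length = n := by
  induction n generalizing u with
  | zero => rfl
  | succ n ih => rw [dec, List.length_cons, ih]

lemma dec_flatMap (σ : List (Fin 2) → Fin k) (ψ : Fin k → List (Fin 2)) (hψ : ∀ a, (ψ a).length = m)
    (hσ : ∀ a, σ (ψ a) = a) (w : List (Fin k)) : dec σ m w.length (w.flatMap ψ) = w := by
  induction w with
  | nil => rfl
  | cons a w ih =>
    rw [List.length_cons, dec, List.flatMap_cons, ← hψ a, List.take_left', List.drop_left', hσ, hψ a, ih]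
    · rfl
    · rfl

lemma flatMap_length (ψ : Fin k → List (Fin 2)) (hψ : ∀ a, (ψ a).length = m)
    (w : List (Fin k)) : (w.flatMap ψ).length = w.length * m := by
  induction w with
  | nil => simp
  | cons a w ih => rw [List.flatMap_cons, List.length_append, ih, hψ, List.length_cons]; ring

/-- The words over two letters the decodings of which belong to `P`. -/
def code (σ : List (Fin 2) → Fin k) (m : ℕ) (P : Set (List (Fin k))) : Set (List (Fin 2)) :=
  {u | ∃ n, u.length = n * m ∧ dec σ m n u ∈ P}

/-- The factorisations over `P`. -/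
def plusOf {B : Type} (P : Set (List B)) : Set (List B) :=
  {w | ∃ l : List (List B), l ≠ [] ∧ (∀ p ∈ l, p ∈ P) ∧ w = l.flatten}

section

variable (σ : List (Fin 2) → Fin k) (ψ : Fin k → List (Fin 2)) (hm : 0 < m)
  (hψ : ∀ a, (ψ a).length = m) (hσ : ∀ a, σ (ψ a) = a) {P : Set (List (Fin k))}

include hm in
lemma code_ne (h : [] ∉ P) : [] ∉ code σ m P := by
  rintro ⟨n, h1, h2⟩
  rw [List.length_nil] at h1
  have h3 : n = 0 := by
    rcases Nat.mul_eq_zero.1 h1.symm with h | h
    · exact h
    · omega
  subst h3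
  exact h h2

include hm in
lemma code_pre (h : ∀ p ∈ P, ∀ q ∈ P, p <+: q → p = q) :
    ∀ u ∈ code σ m P, ∀ v ∈ code σ m P, u <+: v → u = v := by
  rintro u ⟨a, ha, hu⟩ v ⟨b, hb, hv⟩ ⟨t, rfl⟩
  rw [List.length_append, ha] at hb
  have hab : a ≤ b := by
    by_contra hc
    have : b * m < a * m := Nat.mul_lt_mul_of_pos_right (by omega) hm
    omega
  obtain ⟨c, rfl⟩ := Nat.exists_eq_add_of_le hab
  rw [dec_append σ a c u t ha] at hv
  have h1 := h _ hu _ hv (List.prefix_append _ _)
  have h2 := congrArg List.length h1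
  rw [List.length_append, dec_length, dec_length] at h2
  have h3 : c = 0 := by omega
  subst h3
  have h4 : t = [] := List.length_eq_zero_iff.1 (by rw [Nat.add_zero] at hb; omega)
  rw [h4, List.append_nil]

include hm in
lemma code_suf (h : ∀ p ∈ P, ∀ q ∈ P, p <:+ q → p = q) :
    ∀ u ∈ code σ m P, ∀ v ∈ code σ m P, u <:+ v → u = v := by
  rintro u ⟨a, ha, hu⟩ v ⟨b, hb, hv⟩ ⟨t, rfl⟩
  rw [List.length_append, ha] at hb
  have hab : a ≤ b := by
    by_contra hc
    have : b * m < a * m := Nat.mul_lt_mul_of_pos_right (by omega) hm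
    omega
  obtain ⟨c, rfl⟩ := Nat.exists_eq_add_of_le' hab
  have ht : t.length = c * m := by
    have : (c + a) * m = c * m + a * m := by ring
    omega
  rw [dec_append σ c a t u ht] at hv
  have h1 := h _ hu _ hv (List.suffix_append _ _)
  have h2 := congrArg List.length h1
  rw [List.length_append, dec_length, dec_length] at h2
  have h3 : c = 0 := by omega
  subst h3
  have h4 : t = [] := List.length_eq_zero_iff.1 (by omega)
  rw [h4, List.nil_append]

lemma dec_take (n a : ℕ) (ha : a ≤ n) (u : List (Fin 2)) (hu : u.length = n * m) :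
    (dec σ m n u).take a = dec σ m a (u.take (a * m)) := by
  obtain ⟨c, rfl⟩ := Nat.exists_eq_add_of_le ha
  have h1 : (u.take (a * m)).length = a * m := by
    rw [List.length_take, hu]
    have : (a + c) * m = a * m + c * m := by ring
    omega
  conv_lhs => rw [← List.take_append_drop (a * m) u, dec_append σ a c _ _ h1]
  rw [List.take_left']
  exact dec_length _ _ _

include hm in
lemma code_com {M : ℕ} (hM : ∀ p ∈ P, p.length ≤ M)
    (h : ∀ w : List (Fin k), ∃ p ∈ P, p <+: w ∨ w <+: p) :
    ∀ w : List (Fin 2), ∃ u ∈ code σ m P, u <+: w ∨ w <+: u := by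
  intro w
  let N := w.length + M + 1
  have hN : w.length ≤ N * m := by
    have : N * 1 ≤ N * m := Nat.mul_le_mul_left _ hm
    omega
  let w' := w ++ List.replicate (N * m - w.length) (0 : Fin 2)
  have hw' : w'.length = N * m := by
    simp only [w', List.length_append, List.length_replicate]; omega
  obtain ⟨p, hp, hpre⟩ := h (dec σ m N w')
  have hpN : p.length ≤ M := hM p hp
  have hpre' : p <+: dec σ m N w' := by
    rcases hpre with h1 | h1
    · exact h1
    · exfalso
      have := h1.length_le
      rw [dec_length] at this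
      omega
  have hp' : p = dec σ m p.length (w'.take (p.length * m)) := by
    rw [← dec_take σ N p.length (by omega) w' hw']
    exact List.prefix_iff_eq_take.1 hpre'
  refine ⟨w'.take (p.length * m), ⟨p.length, ?_, ?_⟩, ?_⟩
  · rw [List.length_take, hw']
    have : p.length * m ≤ N * m := Nat.mul_le_mul_right _ (by omega)
    omega
  · rw [← hp']; exact hp
  · exact List.prefix_or_prefix_of_prefix (List.take_prefix _ _) (List.prefix_append _ _)

lemma code_fin {M : ℕ} (hM : ∀ p ∈ P, p.length ≤ M) : (code σ m P).Finite := by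
  apply (List.finite_length_le (Fin 2) (M * m)).subset
  rintro u ⟨n, h1, h2⟩
  have h3 := hM _ h2
  rw [dec_length] at h3
  show u.length ≤ M * m
  rw [h1]
  exact Nat.mul_le_mul_right _ h3

include hψ hσ in
lemma plus_of (w : List (Fin k)) (hw : w ∈ plusOf P) : w.flatMap ψ ∈ plusOf (code σ m P) := by
  obtain ⟨l, h1, h2, rfl⟩ := hw
  refine ⟨l.map (fun p => p.flatMap ψ), by simpa using h1, ?_, ?_⟩
  · intro u hu
    obtain ⟨p, hp, rfl⟩ := List.mem_map.1 hu
    refine ⟨p.length, flatMap_length ψ hψ p, ?_⟩
    rw [dec_flatMap σ ψ hψ hσ]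
    exact h2 p hp
  · clear h1 h2
    induction l with
    | nil => rfl
    | cons p l ih => rw [List.flatten_cons, List.flatMap_append, ih, List.map_cons, List.flatten_cons]

include hm hψ hσ in
lemma of_plus (l : List (List (Fin 2))) : ∀ w : List (Fin k), (∀ u ∈ l, u ∈ code σ m P) →
    w.flatMap ψ = l.flatten → ∃ l' : List (List (Fin k)), (∀ p ∈ l', p ∈ P) ∧ w = l'.flatten := by
  induction l with
  | nil =>
    intro w _ h
    refine ⟨[], by simp, ?_⟩
    rw [List.flatten_nil]
    have := congrArg List.length h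
    rw [flatMap_length ψ hψ, List.flatten_nil, List.length_nil] at this
    rcases Nat.mul_eq_zero.1 this with h1 | h1
    · exact List.length_eq_zero_iff.1 h1
    · omega
  | cons u l ih =>
    intro w hl h
    obtain ⟨a, ha, hu⟩ := hl u (by simp)
    have hlen := congrArg List.length h
    rw [flatMap_length ψ hψ, List.flatten_cons, List.length_append, ha] at hlen
    have haw : a ≤ w.length := by
      by_contra hc
      have : w.length * m < a * m := Nat.mul_lt_mul_of_pos_right (by omega) hm
      omega
    have h1 : (w.take a).flatMap ψ ++ (w.drop a).flatMap ψ = u ++ l.flatten := by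
      rw [← List.flatMap_append, List.take_append_drop, h, List.flatten_cons]
    have hta : (w.take a).length = a := by rw [List.length_take]; omega
    have h2 := List.append_inj h1 (by rw [flatMap_length ψ hψ, hta, ha])
    obtain ⟨l', h3, h4⟩ := ih (w.drop a) (fun x hx => hl x (by simp [hx])) h2.2
    refine ⟨w.take a :: l', ?_, by rw [List.flatten_cons, ← h4, List.take_append_drop]⟩
    intro p hp
    rcases List.mem_cons.1 hp with rfl | hp
    · have h5 := dec_flatMap σ ψ hψ hσ (w.take a)
      rw [hta, h2.1] at h5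
      rw [← h5]; exact hu
    · exact h3 p hp

end

/-- Every finite complete bifix code is the inverse image of one over two letters. -/
theorem two (P : Finset (List (Fin k))) (h0 : [] ∉ P) (h1 : ∀ p ∈ P, ∀ q ∈ P, p <+: q → p = q)
    (h2 : ∀ p ∈ P, ∀ q ∈ P, p <:+ q → p = q) (h3 : ∀ w : List (Fin k), ∃ p ∈ P, p <+: w ∨ w <+: p) :
    ∃ (P' : Finset (List (Fin 2))) (ψ : Fin k → List (Fin 2)), [] ∉ P' ∧
      (∀ p ∈ P', ∀ q ∈ P', p <+: q → p = q) ∧ (∀ p ∈ P', ∀ q ∈ P', p <:+ q → p = q) ∧
      (∀ w : List (Fin 2), ∃ p ∈ P', p <+: w ∨ w <+: p) ∧ (∀ a, ψ a ≠ []) ∧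
      plusOf (P : Set (List (Fin k))) = {w | w ≠ [] ∧ w.flatMap ψ ∈ plusOf (P' : Set (List (Fin 2)))} := by
  classical
  have hk : 0 < k := by
    obtain ⟨p, hp, -⟩ := h3 []
    cases p with
    | nil => exact absurd hp h0
    | cons a p => exact Nat.pos_of_ne_zero (by rintro rfl; exact a.elim0)
  let ψ : Fin k → List (Fin 2) := fun a => List.ofFn (fun i : Fin k => if i = a then 1 else 0)
  have hψ : ∀ a, (ψ a).length = k := fun a => by simp [ψ]
  have hinj : Function.Injective ψ := by
    intro a b hab
    have h := congrFun (List.ofFn_injective hab) a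
    by_contra hne
    simp [hne] at h
  let σ : List (Fin 2) → Fin k := fun u => if h : ∃ a, ψ a = u then h.choose else ⟨0, hk⟩
  have hσ : ∀ a, σ (ψ a) = a := by
    intro a
    have h : ∃ b, ψ b = ψ a := ⟨a, rfl⟩
    have h' : σ (ψ a) = h.choose := dif_pos h
    rw [h']
    exact hinj h.choose_spec
  obtain ⟨M, hM⟩ : ∃ M, ∀ p ∈ (P : Set (List (Fin k))), p.length ≤ M :=
    ⟨P.sup List.length, fun p hp => Finset.le_sup (f := List.length) hp⟩
  have hf := code_fin (m := k) σ hM
  refine ⟨hf.toFinset, ψ, ?_, ?_, ?_, ?_, ?_, ?_⟩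
  · rw [Set.Finite.mem_toFinset]; exact code_ne σ hk h0
  · simp only [Set.Finite.mem_toFinset]; exact code_pre σ hk h1
  · simp only [Set.Finite.mem_toFinset]; exact code_suf σ hk h2
  · simp only [Set.Finite.mem_toFinset]; exact code_com σ hk hM h3
  · intro a h
    have := hψ a
    rw [h] at this
    simp at this
    omega
  · rw [Set.Finite.coe_toFinset]
    ext w
    constructor
    · intro hw
      refine ⟨?_, plus_of σ ψ hψ hσ w hw⟩
      rintro rfl
      obtain ⟨l, g1, g2, g3⟩ := hw
      cases l with
      | nil => exact g1 rfl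
      | cons p l =>
        rw [List.flatten_cons] at g3
        exact h0 ((List.append_eq_nil_iff.1 g3.symm).1 ▸ g2 p (by simp))
    · rintro ⟨hw, l, g1, g2, g3⟩
      obtain ⟨l', g4, g5⟩ := of_plus σ ψ hk hψ hσ l w g2 g3
      refine ⟨l', ?_, g4, g5⟩
      rintro rfl
      exact hw g5

end Pool.Agent.KS6_11.BifLG
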